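import Pool.Agent.H690.CA.Main

set_option autoImplicit false

/-!
# Convex surfaces with at most one umbilic, arbitrarily near the round sphere
-/

namespace Pool.Agent.Results.MP_d5a045_gt.ConvexNearRoundSphere

open scoped ContDiff

/-- `p` is an umbilic of the level set of `F` through `p`: the Hessian of `F`, restricted to the
tangent plane `ker (dF p)`, is a multiple of the metric. -/
def Umbilic (F : EuclideanSpace ℝ (Fin 3) → ℝ) (p : EuclideanSpace ℝ (Fin 3)) : Prop :=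
  ∃ c : ℝ, ∀ u v : EuclideanSpace ℝ (Fin 3), fderiv ℝ F p u = 0 → fderiv ℝ F p v = 0 →
    fderiv ℝ (fderiv ℝ F) p u v = c * inner ℝ u v

theorem result :
    ∃ (g : EuclideanSpace ℝ (Fin 3) → EuclideanSpace ℝ (Fin 3)) (ε₀ : ℝ),
      ContDiff ℝ ∞ g ∧ HasCompactSupport g ∧ 0 < ε₀ ∧
      ∀ ε : ℝ, 0 < ε → ε < ε₀ →
        ∃ (Φ : EuclideanSpace ℝ (Fin 3) ≃ₜ EuclideanSpace ℝ (Fin 3))
          (F : EuclideanSpace ℝ (Fin 3) → ℝ),
          (∀ y, Φ y = y + ε • g y) ∧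
          ContDiff ℝ ∞ F ∧
          {x | F x = 0} = Φ '' Metric.sphere (0 : EuclideanSpace ℝ (Fin 3)) 1 ∧
          {x | F x ≤ 0} = Φ '' Metric.closedBall (0 : EuclideanSpace ℝ (Fin 3)) 1 ∧
          (∀ x, F x = 0 → fderiv ℝ F x ≠ 0) ∧
          IsCompact {x | F x = 0} ∧
          Nonempty (↥{x : EuclideanSpace ℝ (Fin 3) | F x = 0} ≃ₜ
            ↥(Metric.sphere (0 : EuclideanSpace ℝ (Fin 3)) 1)) ∧
          Convex ℝ {x | F x ≤ 0} ∧
          ∀ p, F p = 0 → Umbilic F p → p = Φ (EuclideanSpace.single 2 1) := by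
  obtain ⟨g, ε₀, h1, h2, h3, h4⟩ := Pool.Agent.H690.CA.main
  refine ⟨g, ε₀, h1, h2, h3, fun ε hε hε' => ?_⟩
  obtain ⟨Φ, F, k1, k2, k3, k4, k5, k6⟩ := h4 ε hε hε'
  have e1 : {x | F x = 0} = Φ '' Metric.sphere (0 : EuclideanSpace ℝ (Fin 3)) 1 := by
    ext x
    obtain ⟨y, rfl⟩ := Φ.surjective x
    rw [Φ.injective.mem_set_image, mem_sphere_zero_iff_norm, Set.mem_ofPred_eq, k3 y]
    have hn := norm_nonneg y
    constructor
    · intro h
      nlinarith
    · intro h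
      rw [h]; norm_num
  have e2 : {x | F x ≤ 0} = Φ '' Metric.closedBall (0 : EuclideanSpace ℝ (Fin 3)) 1 := by
    ext x
    obtain ⟨y, rfl⟩ := Φ.surjective x
    rw [Φ.injective.mem_set_image, mem_closedBall_zero_iff, Set.mem_ofPred_eq, k3 y]
    have hn := norm_nonneg y
    constructor
    · intro h
      nlinarith
    · intro h
      nlinarith
  refine ⟨Φ, F, k1, k2, e1, e2, k5, ?_, ?_, k4, ?_⟩
  · rw [e1]
    exact (isCompact_sphere _ _).image Φ.continuous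
  · rw [e1]
    exact ⟨(Φ.image _).symm⟩
  · intro p hp hu
    obtain ⟨y, rfl⟩ := Φ.surjective p
    have hy : ‖y‖ = 1 := by
      have h5 : Φ y ∈ Φ '' Metric.sphere (0 : EuclideanSpace ℝ (Fin 3)) 1 := e1 ▸ hp
      rw [Φ.injective.mem_set_image, mem_sphere_zero_iff_norm] at h5
      exact h5
    rw [k6 y hy hu]
    rfl

end Pool.Agent.Results.MP_d5a045_gt.ConvexNearRoundSphere
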